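import Mathlib
import Pool.Agent.R439.S5C

set_option autoImplicit false

namespace Pool.Agent.Results.MP_638395_nt.AllOddExponents

open Finset Pool.Agent.R439

/-- The sum `S_m(N)` of the problem. -/
def S (m N : ℕ) : ℚ := ∑ k ∈ range (N + 1),
  (-1) ^ k * (4 * (k : ℚ) - 1) ^ m * rf (-1 / 2) k ^ 3 / (k.factorial : ℚ) ^ 3

/-- `x ≡ y (mod p^n)`: the difference is `p^n` times a rational number whose denominator is prime
to `p`. -/
def CongMod (p n : ℕ) (x y : ℚ) : Prop := ∃ t : ℚ, x - y = (p : ℚ) ^ n * t ∧ ¬ p ∣ t.den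

theorem S_eq (m N : ℕ) : S m N = ∑ k ∈ range (N + 1), (4 * (k : ℚ) - 1) ^ m * PL.S5.tt k := by
  rw [S]
  refine sum_congr rfl fun k _ => ?_
  have h : PL.S5.nh k = rf (-1 / 2) k := by
    rw [PL.S5.nh, rf]
    exact prod_congr rfl fun i _ => by ring
  rw [PL.S5.tt, h, div_pow]
  ring

/-- **Answer to Q1**, with the conjectured values of the first constants: there are integers
`c_m` with `c_1 = -1, c_3 = 3, c_5 = 23, c_7 = -5, c_9 = 1647, c_11 = -96973` such that for every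
odd `m`, every odd prime `p` and every `r ≥ 1` both congruences hold. -/
theorem result : ∃ c : ℕ → ℤ, c 1 = -1 ∧ c 3 = 3 ∧ c 5 = 23 ∧ c 7 = -5 ∧ c 9 = 1647 ∧
    c 11 = -96973 ∧ ∀ m : ℕ, Odd m → ∀ p r : ℕ, p.Prime → p ≠ 2 → 0 < r →
      CongMod p (r + 2) (S m ((p ^ r + 1) / 2)) (c m * (p : ℚ) ^ r * (-1) ^ ((p - 1) * r / 2)) ∧
      CongMod p (r + 2) (S m (p ^ r - 1)) (c m * (p : ℚ) ^ r * (-1) ^ ((p - 1) * r / 2)) := by
  obtain ⟨c, h1, h3, h5, h7, h9, h11, hc⟩ := PL.S5.exists_c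
  refine ⟨c, h1, h3, h5, h7, h9, h11, fun m hm p r hp hp2 hr => ?_⟩
  have hF : Fact p.Prime := ⟨hp⟩
  have hodd : Odd p := hp.odd_of_ne_two hp2
  obtain ⟨a, ha⟩ := hodd.pow (n := r)
  have hpr : 1 < p ^ r := Nat.one_lt_pow hr.ne' hp.one_lt
  have D : PL.S5.Dat p r a := ⟨hp2, hr, by omega, ha⟩
  have e1 : (p ^ r + 1) / 2 = a + 1 := by omega
  have e2 : p ^ r - 1 = 2 * a := by omega
  rw [PL.S5.sign_eq hodd ha, e1, e2]
  refine ⟨PL.S4.exists_of_I ?_, PL.S4.exists_of_I ?_⟩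
  · have := hc m hm p hF r a (a + 1) D (Or.inl rfl)
    rw [S_eq]
    convert this using 2
    ring
  · have := hc m hm p hF r a (2 * a) D (Or.inr rfl)
    rw [S_eq]
    convert this using 2
    ring

end Pool.Agent.Results.MP_638395_nt.AllOddExponents
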